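import Pool.Agent.X159.LowDens

/-!
# A lower density that is not (-1)-homogeneous

Negative answer to Q1, for each of `H = ℤ`, `ℕ`, `ℕ⁺`.

Let `Y` be a rapidly growing sequence of positive integers that meets every residue class in an
infinite set, and `B = (odd integers) ∪ 2 Y`. The upper density of `S` is the infimum of the total
weights of finite covers of `S` by residue classes `g mod l`, of weight `1 / l`, and sets `k B + h`,
of weight `1 / (2 k)`. Every cover of `Y` has weight at least one, and `B` has weight at most one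
half, so for `X = H \ Y` the lower dual is `0` at `X` and at least `1 / 2` at `2 X`.
-/

set_option autoImplicit false

namespace Pool.Agent.Results.MP_1da4e9_nt.LowerNotHomogeneous

/-- The set `k · X + h`. -/
def dil (k h : ℤ) (X : Set ℤ) : Set ℤ := (fun x => k * x + h) '' X

/-- `μ` is an upper density on `H ⊆ ℤ` (only its values on subsets of `H` matter). -/
structure IsUpperDensity (H : Set ℤ) (μ : Set ℤ → ℝ) : Prop where
  total : μ H = 1
  subadd : ∀ X ⊆ H, ∀ Y ⊆ H, μ (X ∪ Y) ≤ μ X + μ Y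
  affine : ∀ X ⊆ H, ∀ h k : ℤ, 1 ≤ h → 1 ≤ k → μ (dil k h X) = (1 / (k : ℝ)) * μ X
  le_one : ∀ X ⊆ H, μ X ≤ 1
  mono : ∀ X ⊆ H, ∀ Y ⊆ H, X ⊆ Y → μ X ≤ μ Y

/-- The lower dual of `μ` on `H`. -/
def lowerDual (H : Set ℤ) (μ : Set ℤ → ℝ) (X : Set ℤ) : ℝ := 1 - μ (H \ X)

open Pool.Agent.X159.LowDens

/-- For `H = ℤ`, `H = ℕ` and `H = ℕ⁺` there are an upper density on `H` and a set `X ⊆ H` such that
the lower dual is `0` at `X` and `1 / 2` at `2 · X`. -/
theorem result (H : Set ℤ) (hH : H = Set.univ ∨ H = {n | 0 ≤ n} ∨ H = {n | 1 ≤ n}) :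
    ∃ μ : Set ℤ → ℝ, IsUpperDensity H μ ∧ ∃ X ⊆ H,
      lowerDual H μ X = 0 ∧ lowerDual H μ (dil 2 0 X) = 1 / 2 := by
  have hYH : Y ⊆ H := by
    rintro _ ⟨n, rfl⟩
    have := yseq_pos n
    rcases hH with rfl | rfl | rfl
    · trivial
    · show 0 ≤ yseq n
      omega
    · exact this
  have hY1 : mu Y = 1 := le_antisymm (mu_le_one _) one_le_mu_Y
  have hnat : ∀ k : ℤ, 1 ≤ k → ∃ n : ℕ, 0 < n ∧ (n : ℤ) = k := fun k hk =>
    ⟨k.toNat, by omega, by omega⟩
  refine ⟨mu, ⟨?_, fun X _ Y _ => mu_union X Y, ?_, fun X _ => mu_le_one X,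
    fun X _ Y _ h => mu_mono h⟩, H \ Y, Set.diff_subset, ?_, ?_⟩
  · exact le_antisymm (mu_le_one _) (hY1 ▸ mu_mono hYH)
  · intro X _ h k _ hk
    obtain ⟨n, hn, rfl⟩ := hnat k hk
    have h1 := mu_push_le hn h X
    have h2 := mu_le_push hn h X
    unfold dil
    push_cast
    exact le_antisymm h1 h2
  · unfold lowerDual
    rw [Set.diff_diff_cancel_left hYH, hY1]
    norm_num
  · -- the complement of `2 X` in `H`
    unfold lowerDual
    have hsub : H \ dil 2 0 (H \ Y) ⊆ B := by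
      rintro x ⟨hxH, hx⟩
      by_cases h2 : (2 : ℤ) ∣ x
      · right
        obtain ⟨t, rfl⟩ := h2
        refine ⟨t, ?_, rfl⟩
        by_contra ht
        refine hx ⟨t, ⟨?_, ht⟩, by simp⟩
        rcases hH with rfl | rfl | rfl
        · trivial
        · have : (0 : ℤ) ≤ 2 * t := hxH
          show 0 ≤ t
          omega
        · have : (1 : ℤ) ≤ 2 * t := hxH
          show 1 ≤ t
          omega
      · left
        exact h2
    have h1 : mu (H \ dil 2 0 (H \ Y)) ≤ 1 / 2 := (mu_mono hsub).trans mu_B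
    have h2 : (1 : ℝ) ≤ mu (H \ dil 2 0 (H \ Y)) + 1 / 2 := by
      -- `H ⊆ (H \ 2 X) ∪ even numbers`
      have h3 : mu H = 1 := le_antisymm (mu_le_one _) (hY1 ▸ mu_mono hYH)
      have h4 : IsCover [(false, 2, 0)] (dil 2 0 (H \ Y)) := by
        refine ⟨by simp, ?_⟩
        rintro _ ⟨t, _, rfl⟩
        exact ⟨_, List.mem_singleton_self _, t, by simp⟩
      have h5 := mu_le h4
      have h6 : H ⊆ (H \ dil 2 0 (H \ Y)) ∪ dil 2 0 (H \ Y) := by
        intro x hx
        by_cases h : x ∈ dil 2 0 (H \ Y)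
        · exact Or.inr h
        · exact Or.inl ⟨hx, h⟩
      have h7 := (mu_mono h6).trans (mu_union _ _)
      have h8 : tot [(false, 2, 0)] = 1 / 2 := by simp [tot, wt, modu]
      linarith
    linarith

end Pool.Agent.Results.MP_1da4e9_nt.LowerNotHomogeneous
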